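import Pool.Agent.helper16.GK.Spec

/-!
# GK, row DMU: the exponents of the different
-/

set_option autoImplicit false

namespace Pool.Agent.GK

open NumberField IsDedekindDomain

/-- a power of `v 𝓞 L` divides the different -/
theorem DMU_dvd (hDST : DST_stmt) {K L : Type} [Field K] [NumberField K] [Field L] [NumberField L] [Algebra K L] [IsGalois K L]
    (v : Pl K) (P : Ideal (𝓞 L)) (m : ℕ) (hP : P.IsPrime) (hPv : P.under (𝓞 K) = v.asIdeal)
    (hm : P ^ m ∣ differentIdeal (𝓞 K) (𝓞 L)) :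
    ∃ e : ℕ, 1 ≤ e ∧ P ^ e ∣ v.asIdeal.map (algebraMap (𝓞 K) (𝓞 L)) ∧
      (v.asIdeal.map (algebraMap (𝓞 K) (𝓞 L))) ^ (m / e) ∣ differentIdeal (𝓞 K) (𝓞 L) := by
  classical
  haveI := hP
  haveI : FiniteDimensional K L := Module.Finite.of_restrictScalars_finite ℚ K L
  have hI0 : v.asIdeal.map (algebraMap (𝓞 K) (𝓞 L)) ≠ ⊥ := Ideal.map_ne_bot_of_ne_bot v.ne_bot
  haveI : v.asIdeal.IsPrime := v.isPrime
  haveI hLO : P.LiesOver v.asIdeal := ⟨hPv.symm⟩
  have hIP : v.asIdeal.map (algebraMap (𝓞 K) (𝓞 L)) ≤ P := Ideal.map_le_iff_le_comap.2 (le_of_eq hPv.symm)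
  have hP0 : P ≠ ⊥ := ne_bot_of_le_ne_bot hI0 hIP
  have hPr : Prime P := Ideal.prime_of_isPrime hP0 hP
  have he : P.ramificationIdx (𝓞 K) = multiplicity P (v.asIdeal.map (algebraMap (𝓞 K) (𝓞 L))) :=
    Ideal.IsDedekindDomain.ramificationIdx_eq_multiplicity v.asIdeal P hI0
  have hPI : P ∣ v.asIdeal.map (algebraMap (𝓞 K) (𝓞 L)) := Ideal.dvd_iff_le.2 hIP
  have hfin : ∀ Q : Ideal (𝓞 L), Prime Q → FiniteMultiplicity Q (v.asIdeal.map (algebraMap (𝓞 K) (𝓞 L))) :=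
    fun Q hQ => FiniteMultiplicity.of_prime_left hQ hI0
  refine ⟨multiplicity P (v.asIdeal.map (algebraMap (𝓞 K) (𝓞 L))), ?_, pow_multiplicity_dvd _ _, ?_⟩
  · have h1 := (hfin P hPr).pow_dvd_iff_le_multiplicity (k := 1)
    rw [pow_one] at h1
    exact h1.1 hPI
  · rw [UniqueFactorizationMonoid.dvd_iff_emultiplicity_le (pow_ne_zero _ hI0)]
    intro Q hQ
    by_cases hQI : Q ∣ v.asIdeal.map (algebraMap (𝓞 K) (𝓞 L))
    · have hQp : Q.IsPrime := Ideal.isPrime_of_prime hQ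
      haveI := hQp
      have hQv : Q.under (𝓞 K) = v.asIdeal := by
        have h1 : v.asIdeal ≤ Q.under (𝓞 K) := Ideal.map_le_iff_le_comap.1 (Ideal.dvd_iff_le.1 hQI)
        have h2 : v.asIdeal.IsMaximal := v.isMaximal
        exact (h2.eq_of_le (Ideal.IsPrime.under (𝓞 K) Q).ne_top h1).symm
      haveI : Q.LiesOver v.asIdeal := ⟨hQv.symm⟩
      have he' : Q.ramificationIdx (𝓞 K) = multiplicity Q (v.asIdeal.map (algebraMap (𝓞 K) (𝓞 L))) :=
        Ideal.IsDedekindDomain.ramificationIdx_eq_multiplicity v.asIdeal Q hI0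
      have h3 : P.ramificationIdx (𝓞 K) = Q.ramificationIdx (𝓞 K) :=
        Ideal.ramificationIdx_eq_of_isGaloisGroup v.asIdeal P Q Gal(L/K)
      have h4 : multiplicity Q (v.asIdeal.map (algebraMap (𝓞 K) (𝓞 L))) = multiplicity P (v.asIdeal.map (algebraMap (𝓞 K) (𝓞 L))) := by
        rw [← he', ← he, h3]
      rw [emultiplicity_pow hQ, (hfin Q hQ).emultiplicity_eq_multiplicity, h4]
      have h5 : P ^ (m / multiplicity P (v.asIdeal.map (algebraMap (𝓞 K) (𝓞 L))) * multiplicity P (v.asIdeal.map (algebraMap (𝓞 K) (𝓞 L)))) ∣ differentIdeal (𝓞 K) (𝓞 L) :=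
        (pow_dvd_pow P (Nat.div_mul_le_self _ _)).trans hm
      have h6 := hDST K L P Q _ hP hQp (hPv.trans hQv.symm) h5
      have h7 := le_emultiplicity_of_pow_dvd h6
      exact_mod_cast h7
    · have h1 : ¬ Q ∣ (v.asIdeal.map (algebraMap (𝓞 K) (𝓞 L))) ^ (m / multiplicity P (v.asIdeal.map (algebraMap (𝓞 K) (𝓞 L)))) :=
        fun h => hQI (hQ.dvd_of_dvd_pow h)
      rw [emultiplicity_eq_zero.2 h1]
      exact zero_le

theorem DMU (hDST : DST_stmt) (hDEX : DEX_stmt) : DMU_stmt := by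
  classical
  intro B K L _ _ _ _ _ _ v P m hB hP hPv hm
  haveI : FiniteDimensional K L := Module.Finite.of_restrictScalars_finite ℚ K L
  obtain ⟨e, he1, heP, hk⟩ := DMU_dvd hDST v P m hP hPv hm
  have hn := hDEX K L v _ hk
  -- the bound for the exponent
  have hfr : Module.finrank ℚ K * Module.finrank K L = Module.finrank ℚ L := Module.finrank_mul_finrank ℚ K L
  have hK1 : 0 < Module.finrank ℚ K := Module.finrank_pos
  have hL1 : 0 < Module.finrank K L := Module.finrank_pos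
  have hKB : Module.finrank ℚ K ≤ B := by
    have := Nat.le_mul_of_pos_right (Module.finrank ℚ K) hL1
    omega
  have hnB : Module.finrank K L ≤ B := by
    have := Nat.le_mul_of_pos_left (Module.finrank K L) hK1
    omega
  have hle : m / e ≤ B ^ 2 := by
    have h1 : Ideal.span {((Module.finrank K L : ℕ) : 𝓞 K)} ≤ v.asIdeal ^ (m / e) := (Ideal.span_singleton_le_iff_mem _).2 hn
    have h2 := Ideal.absNorm_dvd_absNorm_of_le h1
    rw [Ideal.absNorm_span_natCast, map_pow, NumberField.RingOfIntegers.rank] at h2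
    have h3 : 2 ≤ Ideal.absNorm v.asIdeal := by
      have h4 : Ideal.absNorm v.asIdeal ≠ 0 := fun h => v.ne_bot (Ideal.absNorm_eq_zero_iff.1 h)
      have h5 : Ideal.absNorm v.asIdeal ≠ 1 := fun h => v.isPrime.ne_top (Ideal.absNorm_eq_one_iff.1 h)
      omega
    have h6 := Nat.le_of_dvd (Nat.pow_pos hL1) h2
    have h7 : 2 ^ (m / e) ≤ 2 ^ (B ^ 2) := calc
      2 ^ (m / e) ≤ Ideal.absNorm v.asIdeal ^ (m / e) := Nat.pow_le_pow_left h3 _
      _ ≤ (Module.finrank K L) ^ (Module.finrank ℚ K) := h6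
      _ ≤ B ^ (Module.finrank ℚ K) := Nat.pow_le_pow_left hnB _
      _ ≤ B ^ B := Nat.pow_le_pow_right (by omega) hKB
      _ ≤ (2 ^ B) ^ B := Nat.pow_le_pow_left (Nat.lt_two_pow_self).le _
      _ = 2 ^ (B ^ 2) := by rw [← pow_mul, sq]
    exact (Nat.pow_le_pow_iff_right (by norm_num)).1 h7
  have hm2 : m ≤ e * (B ^ 2 + 1) := by
    have h1 := Nat.lt_mul_div_succ m (show 0 < e by omega)
    have h2 : e * (m / e + 1) ≤ e * (B ^ 2 + 1) := Nat.mul_le_mul_left _ (by omega)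
    omega
  calc P ^ m ∣ P ^ (e * (B ^ 2 + 1)) := pow_dvd_pow P hm2
    _ = (P ^ e) ^ (B ^ 2 + 1) := pow_mul _ _ _
    _ ∣ _ := pow_dvd_pow_of_dvd heP _

end Pool.Agent.GK
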